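import Pool.Agent.H611.GL.Scale

set_option autoImplicit false

/-!
# Destroying the Gaussian law by changing the signs at a thin set of primes
-/

namespace Pool.Agent.H611.GL

open Finset Filter Topology MeasureTheory ProbabilityTheory Pool.Agent.Q163.RP Pool.Agent.Q163.RX
  Pool.Agent.Q163.GC Pool.Agent.Q163.CL Pool.Agent.Y293.SF Pool.Agent.H611.ST

variable {θ : ℝ} {τ : ℕ → ℕ} {Qs : ℕ → Finset ℕ}

lemma tau_mono (hgap : ∀ k, τ k + 2 ≤ τ (k + 1)) {i k : ℕ} (h : i < k) : τ i + 2 ≤ τ k := by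
  induction k with
  | zero => omega
  | succ k ih =>
    rcases Nat.lt_succ_iff_lt_or_eq.1 h with h1 | h1
    · have := hgap k
      have := ih h1
      omega
    · subst h1
      exact hgap i

lemma lo_mem (hsc : ∀ k, Sc θ (τ k) (Qs k)) {k p : ℕ} (hp : p ∈ Qs k) :
    2 ^ τ k < p ∧ p ≤ 2 ^ (τ k + 1) := by
  obtain ⟨_, h2, h3⟩ := (hsc k).pr p hp
  refine ⟨?_, h3⟩
  have h4 : 0 ≤ HH θ (τ k) := by
    unfold HH
    positivity
  have h5 : ((2 ^ τ k : ℕ) : ℝ) < p := by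
    push_cast
    linarith
  exact_mod_cast h5

lemma idx_unique (hsc : ∀ k, Sc θ (τ k) (Qs k)) (hgap : ∀ k, τ k + 2 ≤ τ (k + 1)) {i k p : ℕ}
    (hi : p ∈ Qs i) (hk : p ∈ Qs k) : i = k := by
  have h1 := lo_mem hsc hi
  have h2 := lo_mem hsc hk
  rcases lt_trichotomy i k with h | h | h
  · have h3 := tau_mono hgap h
    have : 2 ^ (τ i + 1) ≤ 2 ^ (τ k) := Nat.pow_le_pow_right (by norm_num) (by omega)
    omega
  · exact h
  · have h3 := tau_mono hgap h
    have : 2 ^ (τ k + 1) ≤ 2 ^ (τ i) := Nat.pow_le_pow_right (by norm_num) (by omega)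
    omega

lemma wc_mem (hsc : ∀ k, Sc θ (τ k) (Qs k)) (hgap : ∀ k, τ k + 2 ≤ τ (k + 1)) (ω c : ℕ → Bool)
    {k p : ℕ} (hp : p ∈ Qs k) : wc Qs ω c p = c k := by
  classical
  have h : ∃ k, p ∈ Qs k := ⟨k, hp⟩
  unfold wc
  rw [dif_pos h]
  congr 1
  exact idx_unique hsc hgap (Nat.find_spec h) hp

/-- the signs at the primes below `4 * 2 ^ τ k` depend only on `c i`, `i ≤ k` -/
lemma wc_dep (hsc : ∀ k, Sc θ (τ k) (Qs k)) (hgap : ∀ k, τ k + 2 ≤ τ (k + 1)) (ω c c' : ℕ → Bool)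
    (k : ℕ) (hc : ∀ i ≤ k, c i = c' i) {p : ℕ} (hp : p < 4 * 2 ^ τ k) :
    wc Qs ω c p = wc Qs ω c' p := by
  by_cases h : ∃ i, p ∈ Qs i
  · obtain ⟨i, hi⟩ := h
    rw [wc_mem hsc hgap ω c hi, wc_mem hsc hgap ω c' hi]
    refine hc i ?_
    by_contra hik
    push Not at hik
    have h1 := tau_mono hgap hik
    have h2 := lo_mem hsc hi
    have h4 : 2 ^ (τ k + 2) ≤ 2 ^ (τ i) := Nat.pow_le_pow_right (by norm_num) (by omega)
    rw [pow_add] at h4
    omega
  · push Not at h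
    rw [wc_not ω c h, wc_not ω c' h]

/-- the uniform law on `[X, 2X]` -/
noncomputable def bs (X : ℝ) : Measure ℝ := (ENNReal.ofReal X)⁻¹ • (volume.restrict (Set.Icc X (2 * X)))

lemma lw_base (f : ℕ → ℝ) (H X t : ℝ) (hX : 0 < X) :
    (lw f H X).real (Set.Iic t) = (bs X).real {x | Zn f H x ≤ t} := by
  unfold lw Measure.real
  rw [if_pos hX, Measure.map_apply (Zn_meas f H) measurableSet_Iic]
  rfl

lemma bs_real (X : ℝ) (hX : 0 < X) (G : Set ℝ) (hG : MeasurableSet G) (hGX : G ⊆ Set.Icc X (2 * X)) :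
    (bs X).real G = (volume G).toReal / X := by
  unfold bs Measure.real
  rw [Measure.smul_apply, smul_eq_mul, Measure.restrict_apply hG, Set.inter_eq_left.2 hGX,
    ENNReal.toReal_mul, ENNReal.toReal_inv, ENNReal.toReal_ofReal hX.le, inv_mul_eq_div]

/-- the difference of the two window sums -/
lemma diff_two (fp fm : ℕ → ℝ) (Q0 : Finset ℕ) (N H x : ℝ) (hx2 : x ≤ 2 * N)
    (h1 : ∀ q ∈ Q0, fp q = 1) (h2 : ∀ q ∈ Q0, fm q = -1)
    (h3 : ∀ n : ℕ, (n : ℝ) < 2 * (N + H / 4) → n ∉ Q0 → fp n = fm n) :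
    Mf fp x H - Mf fm x H = 2 * ((Q0.filter fun q : ℕ => |(q : ℝ) - x| < H / 2).card : ℝ) := by
  classical
  unfold Mf
  rw [← sum_sub_distrib]
  have hsub : Q0.filter (fun q : ℕ => |(q : ℝ) - x| < H / 2) ⊆
      (range (⌈x + H⌉₊ + 1)).filter (fun n : ℕ => |(n : ℝ) - x| < H / 2) := by
    intro q hq
    rw [mem_filter] at hq
    rw [mem_filter, mem_range]
    refine ⟨?_, hq.2⟩
    have c0 := abs_lt.1 hq.2
    have c2 := lt_of_le_of_lt (abs_nonneg _) hq.2
    have c1 : (q : ℝ) < ⌈x + H⌉₊ := lt_of_lt_of_le (by linarith) (Nat.le_ceil _)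
    have : q < ⌈x + H⌉₊ := by exact_mod_cast c1
    omega
  rw [← sum_subset hsub]
  · rw [sum_congr rfl (fun q hq => by
      rw [h1 q (mem_filter.1 hq).1, h2 q (mem_filter.1 hq).1] :
      ∀ q ∈ Q0.filter (fun q : ℕ => |(q : ℝ) - x| < H / 2), fp q - fm q = (1 : ℝ) - (-1)), sum_const,
      nsmul_eq_mul]
    ring
  · intro n hn hnQ
    rw [mem_filter] at hn
    have c0 := (abs_lt.1 hn.2).2
    rw [h3 n (by linarith) fun h => hnQ (mem_filter.2 ⟨h, hn.2⟩), sub_self]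

/-- the distribution function at the scale `2 ^ t` is far from the normal one -/
def Bd (θ : ℝ) (R : ℕ) (η : ℝ) (t : ℕ) (f : ℕ → ℝ) : Prop :=
  ∃ i ∈ Finset.Icc (-(R : ℤ)) R, η ≤ |(lw f (HH θ t) (2 ^ t)).real (Set.Iic ((i : ℝ) / 3)) -
    cdf (gaussianReal 0 1) ((i : ℝ) / 3)|

/-- at each scale one of the two signs is bad -/
lemma step_ex (hsc : ∀ k, Sc θ (τ k) (Qs k)) (hgap : ∀ k, τ k + 2 ≤ τ (k + 1)) (R : ℕ) (η : ℝ)
    (hpar : cdf (gaussianReal 0 1) (-(R : ℝ) / 3) + (1 - cdf (gaussianReal 0 1) ((R : ℝ) / 3)) +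
      (2 + 4 * R) * η < θ / 160) (ω : ℕ → Bool) (k : ℕ) (c : ℕ → Bool) :
    ∃ b : Bool, Bd θ R η (τ k) (mc (wc Qs ω (Function.update c k b))) := by
  set fp := mc (wc Qs ω (Function.update c k false)) with hfp
  set fm := mc (wc Qs ω (Function.update c k true)) with hfm
  set N : ℝ := 2 ^ τ k with hN
  set H := HH θ (τ k) with hH
  have hN0 : 0 < N := by positivity
  have hH0 : 0 < H := by
    rw [hH]
    unfold HH
    positivity
  have hdiff : ∀ x, x ≤ 2 * N → Mf fp x H - Mf fm x H =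
      2 * (((Qs k).filter fun q : ℕ => |(q : ℝ) - x| < H / 2).card : ℝ) := by
    intro x hx
    refine diff_two fp fm (Qs k) N H x hx (fun q hq => by
        rw [hfp, mc_prime _ ((hsc k).pr q hq).1, wc_mem hsc hgap _ _ hq, Function.update_self]
        simp) (fun q hq => by
        rw [hfm, mc_prime _ ((hsc k).pr q hq).1, wc_mem hsc hgap _ _ hq, Function.update_self]
        simp) fun n hn hnQ => ?_
    rw [hfp, hfm]
    refine mc_congr _ _ n fun p hp hpn hn0 => ?_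
    have hpk : p ∉ Qs k := by
      intro hpk
      have h2 := ((hsc k).pr p hpk).2.1
      obtain ⟨r, hr⟩ := hpn
      have hr1 : r = 1 := by
        have hr0 : r ≠ 0 := by
          rintro rfl
          omega
        by_contra hr1
        have h3 : p * 2 ≤ p * r := Nat.mul_le_mul_left _ (by omega)
        rw [← hr] at h3
        have h4 : (p : ℝ) * 2 ≤ n := by exact_mod_cast h3
        linarith
      rw [hr1, mul_one] at hr
      exact hnQ (hr ▸ hpk)
    by_cases hex : ∃ i, p ∈ Qs i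
    · obtain ⟨i, hi⟩ := hex
      have hik : i ≠ k := fun h => hpk (h ▸ hi)
      rw [wc_mem hsc hgap _ _ hi, wc_mem hsc hgap _ _ hi, Function.update_of_ne hik,
        Function.update_of_ne hik]
    · push Not at hex
      rw [wc_not _ _ hex, wc_not _ _ hex]
  by_contra hc
  push Not at hc
  have c1 := hc false
  have c2 := hc true
  unfold Bd at c1 c2
  push Not at c1 c2
  rw [← hfp, ← hH, ← hN] at c1
  rw [← hfm, ← hH, ← hN] at c2
  obtain ⟨G, hG1, hG2, hG3, hG4⟩ := (hsc k).gd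
  rw [← hH] at hG4
  rw [← hN] at hG2 hG3
  have hprob : IsProbabilityMeasure (bs N) := base_prob hN0
  have hks : 0 < Real.sqrt (kap * H) := Real.sqrt_pos.2 (mul_pos kap_pos hH0)
  have key := two_laws (bs N) (Zn fm H) (Zn fp H) (Zn_meas fm H) (Zn_meas fp H) (by
      have h5 : ∀ᵐ x ∂(bs N), x ∈ Set.Icc N (2 * N) := by
        unfold bs
        exact Measure.ae_smul_measure (ae_restrict_mem measurableSet_Icc) _
      filter_upwards [h5] with x hx
      unfold Zn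
      refine div_le_div_of_nonneg_right ?_ hks.le
      have h6 := hdiff x hx.2
      have h7 : (0 : ℝ) ≤ 2 * (((Qs k).filter fun q : ℕ => |(q : ℝ) - x| < H / 2).card : ℝ) := by
        positivity
      linarith) G (fun x hx => by
      have h6 := hdiff x (hG2 hx).2
      have h7 := hG4 x hx
      unfold Zn
      have h8 : Real.sqrt (kap * H) ≤ Real.sqrt H := by
        refine Real.sqrt_le_sqrt ?_
        have := mul_le_mul_of_nonneg_right kap_le hH0.le
        linarith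
      rw [div_add_div _ _ hks.ne' (by norm_num), div_le_div_iff₀ (by positivity) hks]
      have h9 : Mf fm x H * 3 + Real.sqrt (kap * H) * 1 ≤ Mf fp x H * 3 := by linarith
      have h10 := mul_le_mul_of_nonneg_right h9 hks.le
      linarith) (fun t => cdf (gaussianReal 0 1) t) R η (fun i hi => by
      rw [← lw_base fm H N _ hN0]
      exact c2 i hi) (fun i hi => by
      rw [← lw_base fp H N _ hN0]
      exact c1 i hi)
  rw [bs_real N hN0 G hG1 hG2] at key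
  have h8 : θ / 160 ≤ (volume G).toReal / N := by
    rw [le_div_iff₀ hN0]
    exact hG3
  linarith

/-- the law depends on the values up to the end of the windows -/
lemma lw_congr (f g : ℕ → ℝ) (H X t Y : ℝ) (hX : 0 < X) (hY : 2 * X + H / 2 ≤ Y)
    (h : ∀ n : ℕ, (n : ℝ) < Y → f n = g n) :
    (lw f H X).real (Set.Iic t) = (lw g H X).real (Set.Iic t) := by
  rw [lw_Iic f H X hX, lw_Iic g H X hX]
  congr 3
  ext x
  simp only [Set.mem_ofPred_eq]
  refine and_congr_right fun hx => ?_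
  unfold Zn
  rw [Mf_congr f g x H Y (by linarith [hx.2]) h]

/-- **The Gaussian law can be destroyed.** -/
theorem destroy (hsc : ∀ k, Sc θ (τ k) (Qs k)) (hgap : ∀ k, τ k + 2 ≤ τ (k + 1))
    (hθ : θ < 1) (R : ℕ) (η : ℝ)
    (hpar : cdf (gaussianReal 0 1) (-(R : ℝ) / 3) + (1 - cdf (gaussianReal 0 1) ((R : ℝ) / 3)) +
      (2 + 4 * R) * η < θ / 160) (ω : ℕ → Bool) : ∃ ω' : ℕ → Bool,
    (∀ p, (∀ k, p ∉ Qs k) → ω' p = ω p) ∧ ∀ k : ℕ, Bd θ R η (τ k) (mc ω') := by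
  obtain ⟨c, hc⟩ := exists_seq (fun k c => Bd θ R η (τ k) (mc (wc Qs ω c)))
    (fun k c c' hcc hB => by
      obtain ⟨i, hi, hB⟩ := hB
      refine ⟨i, hi, ?_⟩
      have hH1 : HH θ (τ k) ≤ 2 ^ τ k := by
        unfold HH
        calc ((2 : ℝ) ^ τ k) ^ θ ≤ ((2 : ℝ) ^ τ k) ^ (1 : ℝ) :=
              Real.rpow_le_rpow_of_exponent_le (one_le_pow₀ (by norm_num)) hθ.le
          _ = 2 ^ τ k := Real.rpow_one _
      rw [← lw_congr (mc (wc Qs ω c)) (mc (wc Qs ω c')) (HH θ (τ k)) (2 ^ τ k) _ (4 * 2 ^ τ k)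
        (by positivity) (by
          have : (0 : ℝ) < 2 ^ τ k := by positivity
          linarith) fun n hn => mc_congr _ _ n fun p hp hpn hn0 =>
            wc_dep hsc hgap ω c c' k hcc ?_]
      · exact hB
      · have hn' : n < 4 * 2 ^ τ k := by exact_mod_cast hn
        exact lt_of_le_of_lt (Nat.le_of_dvd (by omega) hpn) hn')
    (fun k c => step_ex hsc hgap R η hpar ω k c)
  exact ⟨wc Qs ω c, fun p hp => wc_not ω c hp, hc⟩

/-- a sequence of scales -/
lemma exists_scales (θ : ℝ) (h0 : 0 < θ) (h1 : θ < 1) : ∃ τ : ℕ → ℕ, ∃ Qs : ℕ → Finset ℕ,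
    (∀ k, Sc θ (τ k) (Qs k)) ∧ (∀ k, τ k + 2 ≤ τ (k + 1)) ∧ ∀ k, k ≤ τ k := by
  obtain ⟨t0, ht0⟩ := eventually_atTop.1 (exists_sc θ h0 h1)
  choose! Q0 hQ0 using ht0
  exact ⟨fun k => t0 + 2 * k, fun k => Q0 (t0 + 2 * k), fun k => hQ0 _ (Nat.le_add_right _ _),
    fun k => by show t0 + 2 * k + 2 ≤ t0 + 2 * (k + 1); omega,
    fun k => by show k ≤ t0 + 2 * k; omega⟩

lemma mass_le (hsc : ∀ k, Sc θ (τ k) (Qs k)) (s : ℝ) (hs0 : 0 ≤ s) (k : ℕ) :
    ∑ q ∈ Qs k, (q : ℝ) ^ (-s) ≤ 3 * ((2 : ℝ) ^ (1 - θ / 2 - s)) ^ τ k := by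
  have hN0 : (0 : ℝ) < 2 ^ τ k := by positivity
  have h3 : ∀ q ∈ Qs k, (q : ℝ) ^ (-s) ≤ ((2 : ℝ) ^ (τ k)) ^ (-s) := by
    intro q hq
    refine Real.rpow_le_rpow_of_nonpos (by positivity) ?_ (by linarith)
    have h4 := (lo_mem hsc hq).1
    exact_mod_cast h4.le
  refine (sum_le_sum h3).trans ?_
  rw [sum_const, nsmul_eq_mul]
  calc ((Qs k).card : ℝ) * ((2 : ℝ) ^ (τ k)) ^ (-s)
      ≤ 3 * ((2 : ℝ) ^ τ k) ^ (1 - θ / 2) * ((2 : ℝ) ^ (τ k)) ^ (-s) :=
        mul_le_mul_of_nonneg_right (hsc k).cd (by positivity)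
    _ = 3 * ((2 : ℝ) ^ (1 - θ / 2 - s)) ^ τ k := by
        rw [mul_assoc, ← Real.rpow_add hN0, ← Real.rpow_natCast, ← Real.rpow_natCast,
          ← Real.rpow_mul (by norm_num), ← Real.rpow_mul (by norm_num)]
        congr 2
        ring

/-- the exponent of convergence of the changed primes is at most `1 - θ/2` -/
theorem thin (hsc : ∀ k, Sc θ (τ k) (Qs k)) (hgap : ∀ k, τ k + 2 ≤ τ (k + 1)) (s : ℝ)
    (hθ1 : θ < 1) (hs : 1 - θ / 2 < s) (Q : Set ℕ) (hQ : ∀ q ∈ Q, ∃ k, q ∈ Qs k) :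
    Summable fun q : Q => ((q : ℕ) : ℝ) ^ (-s) := by
  classical
  set r : ℝ := (2 : ℝ) ^ (1 - θ / 2 - s) with hr
  have hr0 : 0 < r := Real.rpow_pos_of_pos (by norm_num) _
  have hr1 : r < 1 := Real.rpow_lt_one_of_one_lt_of_neg (by norm_num) (by linarith)
  have hinj : Function.Injective τ := (strictMono_nat_of_lt_succ fun k => by
    have := hgap k
    omega).injective
  have h0 : Summable fun k : ℕ => ∑ q ∈ Qs k, (q : ℝ) ^ (-s) := by
    have h2 : Summable fun t : ℕ => 3 * r ^ t :=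
      (summable_geometric_of_lt_one hr0.le hr1).mul_left 3
    have h3 : Summable fun k : ℕ => 3 * r ^ τ k := h2.comp_injective hinj
    exact Summable.of_nonneg_of_le
      (fun k => sum_nonneg fun y _ => Real.rpow_nonneg (Nat.cast_nonneg _) _)
      (fun k => mass_le hsc s (by linarith) k) h3
  have hnn : ∀ q : ℕ, 0 ≤ (q : ℝ) ^ (-s) := fun q => Real.rpow_nonneg (Nat.cast_nonneg _) _
  choose! idx hidx using hQ
  refine summable_of_sum_le (c := ∑' k, ∑ q ∈ Qs k, (q : ℝ) ^ (-s)) (fun q => hnn _) fun u => ?_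
  have h1 : ∑ q ∈ u, ((q : ℕ) : ℝ) ^ (-s) = ∑ q ∈ u.image (fun q : Q => (q : ℕ)), (q : ℝ) ^ (-s) := by
    rw [sum_image fun a _ b _ h => Subtype.ext h]
  set K := u.image (fun q : Q => idx q) with hK
  have h2 : u.image (fun q : Q => (q : ℕ)) ⊆ K.biUnion Qs := by
    intro q hq
    rw [mem_image] at hq
    obtain ⟨q', hq', rfl⟩ := hq
    rw [mem_biUnion]
    exact ⟨idx q', mem_image_of_mem _ hq', hidx q' q'.2⟩
  rw [h1]
  refine (sum_le_sum_of_subset_of_nonneg h2 fun q _ _ => hnn q).trans ?_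
  rw [sum_biUnion]
  · exact h0.sum_le_tsum _ fun k _ => sum_nonneg fun q _ => hnn q
  · intro i _ j _ hij
    rw [Function.onFun, disjoint_left]
    intro q hq hq'
    exact hij (idx_unique hsc hgap hq hq')

end Pool.Agent.H611.GL
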