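import Pool.Agent.H611.GL.Stab
import Pool.Graph.R_pool_sql_team_seeded_3997aac3.Q163.BC.Flip

set_option autoImplicit false

/-!
# Stability of the Gaussian law
-/

namespace Pool.Agent.H611.GL

open Finset Filter Topology MeasureTheory Pool.Agent.Q163.RP Pool.Agent.Q163.RX Pool.Agent.Q163.GC
  Pool.Agent.Q163.BC Pool.Agent.Q163.CL Pool.Agent.Y293.SF Pool.Agent.H611.ST

/-- an almost sure property holds for all finite modifications -/
theorem ae_finite {P : (ℕ → Bool) → Prop} (h : ∀ᵐ ω ∂cm, P ω) :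
    ∀ᵐ ω ∂cm, ∀ ω' : ℕ → Bool, {p | ω' p ≠ ω p}.Finite → P ω' := by
  have h1 : ∀ᵐ ω ∂cm, ∀ S : Finset ℕ, P (flS (S : Set ℕ) ω) := by
    rw [ae_all_iff]
    intro S
    exact (mp_flS (S : Set ℕ)).quasiMeasurePreserving.ae h
  filter_upwards [h1] with ω hω ω' hf
  have h2 := hω hf.toFinset
  have h3 : flS ((hf.toFinset : Finset ℕ) : Set ℕ) ω = ω' := by
    funext p
    unfold flS
    rw [Set.Finite.coe_toFinset]
    by_cases hp : ω' p = ω p
    · rw [if_neg (by simp [hp])]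
      exact hp.symm
    · rw [if_pos (by simpa using hp)]
      cases hω : ω p <;> cases hω' : ω' p <;> simp_all
  rwa [h3] at h2

/-- the differences are small on the grid -/
theorem diff_grid (Q : Set ℕ) (s : ℝ) (hs : s < 1 / 2)
    (hQ : Summable fun q : Q => ((q : ℕ) : ℝ) ^ (-s)) : ∃ b : ℕ, ∀ᵐ ω ∂cm, ∀ ω' : ℕ → Bool,
      (∀ p : ℕ, p.Prime → ω' p ≠ ω p → p ∈ Q) → ∀ δ : ℝ, 0 < δ → ∃ y : ℕ, ∀ A : ℕ, 11 + 10 * b ≤ A →
      ∀ᶠ j : ℕ in atTop, ∀ i : ℕ, 2 ^ i * j ^ (10 + 10 * b) ≤ j ^ A →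
        BB (FF ω ω' y) (j ^ A) (2 ^ i) ≤ δ * ((2 ^ i : ℕ) * (j : ℝ) ^ A) := by
  obtain ⟨K, hK, hK2⟩ := euler Q s hQ
  have hσ : 0 < 1 / 2 - s := by linarith
  obtain ⟨b, hb⟩ := exists_nat_ge (4 / (1 / 2 - s))
  have hb' : 4 ≤ b * (1 / 2 - s) := by
    rw [div_le_iff₀ hσ] at hb
    exact hb
  have hb0 : 1 ≤ b := by
    by_contra hc
    have : b = 0 := by omega
    subst this
    norm_num at hb'
  have hS : ∀ j Y : ℕ, 1 ≤ j → ∑ d ∈ Ioc (j ^ b) Y, ww Q d * ee d ≤ K / (j : ℝ) ^ 4 := by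
    intro j Y hj1
    have hjR : (1 : ℝ) ≤ j := by exact_mod_cast hj1
    have hjp : (0 : ℝ) < j := by linarith
    refine (tails Q s hs K hK2 (j ^ b) Y (Nat.one_le_pow _ _ hj1)).trans ?_
    rw [div_eq_mul_inv]
    refine mul_le_mul_of_nonneg_left ?_ (by linarith)
    calc ((j ^ b : ℕ) : ℝ) ^ (-(1 / 2 - s)) = ((j : ℝ) ^ (b : ℝ)) ^ (-(1 / 2 - s)) := by
          rw [Real.rpow_natCast]
          push_cast
          rfl
      _ = (j : ℝ) ^ (-(b * (1 / 2 - s))) := by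
          rw [← Real.rpow_mul hjp.le]
          congr 1
          ring
      _ ≤ (j : ℝ) ^ (-(4 : ℝ)) := Real.rpow_le_rpow_of_exponent_le hjR (by linarith)
      _ = ((j : ℝ) ^ 4)⁻¹ := by
          rw [Real.rpow_neg hjp.le]
          congr 1
          exact_mod_cast Real.rpow_natCast (j : ℝ) 4
  refine ⟨b, ?_⟩
  have h1 : ∀ᵐ ω ∂cm, ∀ A : ℕ, 11 + 10 * b ≤ A → (∀ᶠ j : ℕ in atTop,
      ∀ i u : ℕ, 1 ≤ u → u ≤ 2 * j → u * 2 ^ i * j ^ (10 + 10 * b) ≤ j ^ A →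
      ∀ d ∈ Ioc 0 (j ^ b), ∀ d' ∈ Ioc 0 (j ^ b),
        |OL (fun n => ad d n * ch ω n) (fun n => ad d' n * ch ω n) (j ^ A) (u * 2 ^ i)| ≤
          (u * 2 ^ i : ℕ) * (j : ℝ) ^ A / (4 * j * ((j ^ b : ℕ) : ℝ) ^ 4)) ∧ ∀ᶠ j : ℕ in atTop,
      ∀ i u : ℕ, 1 ≤ u → u ≤ 2 * j → u * 2 ^ i * j ^ (10 + 10 * b) ≤ j ^ A →
      (K / (j : ℝ) ^ 4) * ∑ d ∈ Ioc (j ^ b) (j ^ A + u * 2 ^ i),
        ww Q d * (ee d)⁻¹ * BB (fun n => ad d n * ch ω n) (j ^ A) (u * 2 ^ i) ≤
        (1 / (20 * j)) ^ 2 * ((u * 2 ^ i : ℕ) * (j : ℝ) ^ A) := by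
    rw [ae_all_iff]
    intro A
    by_cases hA : 11 + 10 * b ≤ A
    · filter_upwards [ev1 b A hA, ev2 Q b A hA K hK hS] with ω k1 k2 _
      exact ⟨k1, k2⟩
    · exact Eventually.of_forall fun ω h => absurd h hA
  filter_upwards [h1] with ω hω ω' hω' δ hδ
  have ht : Tendsto (fun y : ℕ => K * (y : ℝ) ^ (-(1 / 2 - s))) atTop (𝓝 0) := by
    have := ((tendsto_rpow_neg_atTop hσ).comp tendsto_natCast_atTop_atTop).const_mul K
    rw [mul_zero] at this
    exact this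
  obtain ⟨y, hy, hy1⟩ := ((ht.eventually (gt_mem_nhds (lt_min (by norm_num : (0 : ℝ) < 1)
    (by positivity : 0 < δ / 12)))).and (eventually_ge_atTop 1)).exists
  set τ : ℝ := K * (y : ℝ) ^ (-(1 / 2 - s)) with hτ
  have hτ0 : 0 ≤ τ := by positivity
  have hτ1 : τ ≤ 1 := (hy.trans_le (min_le_left _ _)).le
  have hτ2 : τ ≤ δ / 12 := (hy.trans_le (min_le_right _ _)).le
  refine ⟨y, fun A hA => ?_⟩
  obtain ⟨k1, k2⟩ := hω A hA
  obtain ⟨j0, hj0⟩ := exists_nat_ge (8 / δ)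
  filter_upwards [k1, k2, eventually_ge_atTop (max j0 (max y 1))] with j a1 a2 hj i hc
  have hj1 : 1 ≤ j := (le_max_right _ _).trans ((le_max_right _ _).trans hj)
  have hjy : y ≤ j := (le_max_left _ _).trans ((le_max_right _ _).trans hj)
  have hjR : (1 : ℝ) ≤ j := by exact_mod_cast hj1
  have hjp : (0 : ℝ) < j := by linarith
  have hjbig : 8 / δ ≤ j := hj0.trans (by exact_mod_cast (le_max_left _ _).trans hj)
  have hc' : 1 * 2 ^ i * j ^ (10 + 10 * b) ≤ j ^ A := by rwa [one_mul]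
  have b1 := a1 i 1 le_rfl (by omega) hc'
  have b2 := a2 i 1 le_rfl (by omega) hc'
  rw [one_mul] at b1 b2
  set h := 2 ^ i with hh
  set D : ℝ := ((j ^ b : ℕ) : ℝ) with hD
  have hD0 : 0 < D := by rw [hD]; push_cast; positivity
  set X : ℝ := (h : ℝ) * (j : ℝ) ^ A with hX
  have hX0 : 0 ≤ X := by positivity
  have hXe : (h : ℝ) * ((j ^ A : ℕ) : ℝ) = X := by rw [hX]; push_cast; rfl
  have hyD : y ≤ j ^ b := hjy.trans (by
    calc j = j ^ 1 := (pow_one j).symm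
      _ ≤ j ^ b := Nat.pow_le_pow_right hj1 hb0)
  have key := point Q ω ω' hω' y (j ^ A) h (j ^ b) (Nat.one_le_pow _ _ hj1) hyD
    (Nat.pow_le_pow_right hj1 (by omega)) τ (K / (j : ℝ) ^ 4) (X / (4 * j * D ^ 4)) (1 / j)
    (tails Q s hs K hK2 y (j ^ b) hy1) (hS j _ hj1) (by
      rw [hXe]
      refine b2.trans (mul_le_mul_of_nonneg_right ?_ hX0)
      rw [div_pow, one_pow, div_le_div_iff₀ (by positivity) hjp]
      nlinarith) (by
      rw [hXe]
      have e1 : D ^ 4 * (X / (4 * j * D ^ 4)) = X / (4 * j) := by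
        field_simp
      rw [e1, one_div, ← div_eq_inv_mul]
      exact div_le_div_of_nonneg_left hX0 hjp (by linarith)) (by positivity)
    (fun d hd => b1 d hd d hd)
  refine key.trans ?_
  rw [hXe]
  refine mul_le_mul_of_nonneg_right ?_ hX0
  have c1 : 6 * τ ^ 2 ≤ δ / 2 := by nlinarith
  have c2 : 2 * τ * (1 / j) + 2 * (1 / j) ≤ 4 / j := by
    have : 0 ≤ 1 / (j : ℝ) := by positivity
    have e1 : (4 : ℝ) / j = 4 * (1 / j) := by ring
    rw [e1]
    nlinarith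
  have c3 : 4 / (j : ℝ) ≤ δ / 2 := by
    rw [div_le_iff₀ hδ] at hjbig
    rw [div_le_div_iff₀ hjp (by norm_num)]
    linarith
  linarith

lemma W_sub (f g : ℕ → ℝ) (x h : ℕ) : W f x h - W g x h = W (fun n => f n - g n) x h := by
  unfold W
  rw [sum_sub_distrib]

/-- **Stability of the convergence of the characteristic functions.** -/
theorem stable_uconv (Q : Set ℕ) (s : ℝ) (hs : s < 1 / 2)
    (hQ : Summable fun q : Q => ((q : ℕ) : ℝ) ^ (-s)) : ∀ᵐ ω ∂cm, ∀ ω' : ℕ → Bool,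
      (∀ p : ℕ, p.Prime → ω' p ≠ ω p → p ∈ Q) → UConv fun n => mu n * ch ω' n := by
  obtain ⟨b, hb⟩ := diff_grid Q s hs hQ
  have hfin := ae_finite ((ae_uconv mu fun n => rfl).mono fun ω hω => hω.2)
  filter_upwards [hb, hfin] with ω h1 h2 ω' hω' ε hε hε1 T η hη
  have hkap := kap_pos
  set T' := max T 1 with hT'
  have hT0 : 1 ≤ T' := le_max_right _ _
  set δ : ℝ := kap * (η / 2) ^ 2 / (48 * T' ^ 2) with hδ
  have hδ0 : 0 < δ := by positivity
  obtain ⟨y, hy⟩ := h1 ω' hω' δ hδ0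
  have h3 := h2 (cut ω ω' y) (by
    refine (Set.finite_Iic y).subset fun p hp => ?_
    by_contra hc
    simp only [Set.mem_Iic] at hc
    refine hp ?_
    unfold cut
    rw [if_neg hc])
  obtain ⟨A0, hA0⟩ := exists_nat_ge (((10 + 10 * b + 2 : ℕ) : ℝ) / ε)
  set A := max A0 (11 + 10 * b) with hA
  have hA13 : 11 + 10 * b ≤ A := le_max_right _ _
  have hAR : ((10 + 10 * b + 2 : ℕ) : ℝ) / ε ≤ A := hA0.trans (by exact_mod_cast le_max_left A0 _)
  have hAp : (0 : ℝ) < A := by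
    have : 0 < A := by omega
    exact_mod_cast this
  have h4 := interp (FF ω ω' y) δ hδ0.le (10 + 10 * b) A (by omega) (by omega) (hy A hA13)
  have h5 : Tendsto (fun N : ℕ => 2 * N) atTop atTop :=
    tendsto_id.const_mul_atTop' (by norm_num : 0 < 2)
  filter_upwards [h3 ε hε hε1 T (η / 2) (by positivity), h5.eventually h4, eventually_ge_atTop 1,
    ev_rpow 1 ε hε] with N k1 k2 k3 k4 h hh1 hh2 t ht
  have hN0 : (0 : ℝ) < N := by exact_mod_cast k3
  have hNR : (1 : ℝ) ≤ N := by exact_mod_cast k3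
  have hh' : (1 : ℝ) ≤ h := k4.trans hh1
  have hh0 : (0 : ℝ) < h := by linarith
  have htT : |t| ≤ T' := ht.trans (le_max_left _ _)
  obtain ⟨m1, m2⟩ := k1 h hh1 hh2 t ht
  have e2N : (1 : ℝ) ≤ ((2 * N : ℕ) : ℝ) := by push_cast; linarith
  have h6 := k2 h (by
    have e1 : ((2 * N : ℕ) : ℝ) ^ (((10 + 10 * b + 2 : ℕ) : ℝ) / A) ≤ ((2 * N : ℕ) : ℝ) ^ ε := by
      refine Real.rpow_le_rpow_of_exponent_le e2N ?_
      rw [div_le_iff₀ hAp]
      rw [div_le_iff₀ hε] at hAR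
      linarith
    have e3 : (N : ℝ) ^ (1 - ε) ≤ ((2 * N : ℕ) : ℝ) ^ (1 - ε) := by
      refine Real.rpow_le_rpow hN0.le ?_ (by linarith)
      push_cast
      linarith
    calc (h : ℝ) * ((2 * N : ℕ) : ℝ) ^ (((10 + 10 * b + 2 : ℕ) : ℝ) / A)
        ≤ ((2 * N : ℕ) : ℝ) ^ (1 - ε) * ((2 * N : ℕ) : ℝ) ^ ε :=
          mul_le_mul (hh2.trans e3) e1 (by positivity) (by positivity)
      _ = ((2 * N : ℕ) : ℝ) := by
          rw [← Real.rpow_add (by linarith)]
          norm_num)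
  have h7 : ∑ x ∈ Ico N (2 * N), (th (fun n => mu n * ch ω' n) t h x -
      th (fun n => mu n * ch (cut ω ω' y) n) t h x) ^ 2 ≤ (η / 2) ^ 2 * N := by
    have e1 : ∀ x, (th (fun n => mu n * ch ω' n) t h x -
        th (fun n => mu n * ch (cut ω ω' y) n) t h x) ^ 2 =
        t ^ 2 / (kap * h) * W (FF ω ω' y) x h ^ 2 := by
      intro x
      unfold th
      rw [← mul_sub, W_sub, mul_pow, div_pow, Real.sq_sqrt (by positivity)]
      rfl
    simp_rw [e1]
    rw [← mul_sum]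
    have e2 : ∑ x ∈ Ico N (2 * N), W (FF ω ω' y) x h ^ 2 ≤ BB (FF ω ω' y) (2 * N) h := by
      unfold BB
      refine sum_le_sum_of_subset_of_nonneg (fun x hx => ?_) fun _ _ _ => sq_nonneg _
      rw [mem_Ico] at hx
      rw [mem_range]
      exact hx.2
    have e3 : t ^ 2 ≤ T' ^ 2 := by
      rw [← sq_abs]
      exact pow_le_pow_left₀ (abs_nonneg _) htT 2
    push_cast at h6
    calc t ^ 2 / (kap * h) * ∑ x ∈ Ico N (2 * N), W (FF ω ω' y) x h ^ 2
        ≤ T' ^ 2 / (kap * h) * (24 * δ * (h * (2 * N))) := by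
          refine mul_le_mul (div_le_div_of_nonneg_right e3 (by positivity)) (e2.trans h6)
            (sum_nonneg fun _ _ => sq_nonneg _) (by positivity)
      _ = (η / 2) ^ 2 * N := by
          rw [hδ]
          field_simp
          ring
  have h8 : Real.sqrt ((∑ x ∈ Ico N (2 * N), (th (fun n => mu n * ch ω' n) t h x -
      th (fun n => mu n * ch (cut ω ω' y) n) t h x) ^ 2) / N) ≤ η / 2 := by
    rw [Real.sqrt_le_left (by positivity), div_le_iff₀ hN0]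
    exact h7
  constructor
  · have d1 : |Cm (th (fun n => mu n * ch ω' n) t h) N -
        Cm (th (fun n => mu n * ch (cut ω ω' y) n) t h) N| ≤ η / 2 :=
      (ang_change Real.cos cos_lip _ _ N k3).trans h8
    have e : Cm (th (fun n => mu n * ch ω' n) t h) N - Real.exp (-t ^ 2 / 2) =
        (Cm (th (fun n => mu n * ch ω' n) t h) N - Cm (th (fun n => mu n * ch (cut ω ω' y) n) t h) N) +
        (Cm (th (fun n => mu n * ch (cut ω ω' y) n) t h) N - Real.exp (-t ^ 2 / 2)) := by ring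
    rw [e]
    refine (abs_add_le _ _).trans ?_
    linarith
  · have d1 : |Sm (th (fun n => mu n * ch ω' n) t h) N -
        Sm (th (fun n => mu n * ch (cut ω ω' y) n) t h) N| ≤ η / 2 :=
      (ang_change Real.sin sin_lip _ _ N k3).trans h8
    have e : Sm (th (fun n => mu n * ch ω' n) t h) N =
        (Sm (th (fun n => mu n * ch ω' n) t h) N - Sm (th (fun n => mu n * ch (cut ω ω' y) n) t h) N) +
        Sm (th (fun n => mu n * ch (cut ω ω' y) n) t h) N := by ring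
    rw [e]
    refine (abs_add_le _ _).trans ?_
    linarith

end Pool.Agent.H611.GL
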