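import Pool.Agent.H611.GL.Two
import Pool.Graph.R_seed8.W38.PRb
import Pool.Graph.R_pool_sql_team_668148b0.Helper564.E451.Pnt

set_option autoImplicit false

/-!
# Scales with many windows which contain many primes of a thin set
-/

namespace Pool.Agent.H611.GL

open Finset Filter Topology MeasureTheory

/-- the length of the windows at the scale `2 ^ t` -/
noncomputable def HH (θ : ℝ) (t : ℕ) : ℝ := ((2 : ℝ) ^ t) ^ θ

/-- a scale -/
structure Sc (θ : ℝ) (t : ℕ) (Q0 : Finset ℕ) : Prop where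
  pr : ∀ q ∈ Q0, q.Prime ∧ (2 : ℝ) ^ t + HH θ t / 4 < q ∧ q ≤ 2 ^ (t + 1)
  cd : (Q0.card : ℝ) ≤ 3 * ((2 : ℝ) ^ t) ^ (1 - θ / 2)
  gd : ∃ G : Set ℝ, MeasurableSet G ∧ G ⊆ Set.Icc ((2 : ℝ) ^ t) (2 * 2 ^ t) ∧
    θ / 160 * 2 ^ t ≤ (volume G).toReal ∧
    ∀ x ∈ G, Real.sqrt (HH θ t) / 6 ≤ ((Q0.filter fun q : ℕ => |(q : ℝ) - x| < HH θ t / 2).card : ℝ)

/-- the primes of a block -/
def pb (N L i : ℕ) : Finset ℕ := (Ioc (N + i * L) (N + (i + 1) * L)).filter Nat.Prime

lemma pb_card (N L i : ℕ) (hL : 2 ≤ L) : ((pb N L i).card : ℝ) ≤ 20 * (L / Real.log L) := by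
  have h1 := Pool.Agent.W38.PR.bt_unif (a := N + i * L + 1) (q := 1) (N := L) le_rfl hL
  have h2 : (((Finset.range L).filter (fun k => (N + i * L + 1 + k * 1).Prime)).card) =
      (pb N L i).card := by
    refine card_bij (fun k _ => N + i * L + 1 + k) ?_ ?_ ?_
    · intro k hk
      rw [mem_filter, mem_range] at hk
      unfold pb
      rw [mem_filter, mem_Ioc]
      rw [mul_one] at hk
      refine ⟨⟨by omega, ?_⟩, hk.2⟩
      rw [Nat.add_mul]
      omega
    · intro a _ b _ hab
      omega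
    · intro q hq
      unfold pb at hq
      rw [mem_filter, mem_Ioc, Nat.add_mul] at hq
      refine ⟨q - (N + i * L + 1), ?_, by omega⟩
      rw [mem_filter, mem_range, mul_one]
      refine ⟨by omega, ?_⟩
      rw [show N + i * L + 1 + (q - (N + i * L + 1)) = q by omega]
      exact hq.2
  rw [h2] at h1
  simpa using h1

/-- the primes are in the blocks -/
lemma total (N L : ℕ) (hL : 1 ≤ L) :
    ((Ioc N (2 * N)).filter Nat.Prime).card ≤ 3 * L + ∑ i ∈ Ico 2 (N / L), (pb N L i).card := by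
  have h1 : (Ioc N (2 * N)).filter Nat.Prime ⊆
      (Ioc N (N + 2 * L) ∪ Ioc (N + N / L * L) (2 * N)) ∪ (Ico 2 (N / L)).biUnion (pb N L) := by
    intro q hq
    rw [mem_filter, mem_Ioc] at hq
    rw [mem_union, mem_union, mem_Ioc, mem_Ioc, mem_biUnion]
    set i := (q - N - 1) / L with hi
    have a1 : i * L ≤ q - N - 1 := Nat.div_mul_le_self _ _
    have a2 : q - N - 1 < (i + 1) * L := Nat.lt_mul_of_div_lt (Nat.lt_succ_self _) (by omega)
    rw [Nat.add_mul] at a2
    by_cases c1 : i < 2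
    · left; left
      have : i * L ≤ 1 * L := Nat.mul_le_mul_right _ (by omega)
      omega
    by_cases c2 : N / L ≤ i
    · left; right
      have : N / L * L ≤ i * L := Nat.mul_le_mul_right _ c2
      omega
    · right
      refine ⟨i, by rw [mem_Ico]; omega, ?_⟩
      unfold pb
      rw [mem_filter, mem_Ioc, Nat.add_mul]
      exact ⟨⟨by omega, by omega⟩, hq.2⟩
  refine (card_le_card h1).trans ((card_union_le _ _).trans (add_le_add ?_ card_biUnion_le))
  refine (card_union_le _ _).trans ?_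
  rw [Nat.card_Ioc, Nat.card_Ioc]
  have h2 := Nat.div_add_mod N L
  have h3 := Nat.mod_lt N (by omega : 0 < L)
  have h4 : L * (N / L) = N / L * L := mul_comm _ _
  omega

/-- the bounds at large scales -/
lemma sizes (θ : ℝ) (h0 : 0 < θ) (h1 : θ < 1) : ∀ᶠ t : ℕ in atTop,
    3600 ≤ HH θ t ∧ HH θ t ≤ 2 ^ t ∧ 2 ≤ Real.log (HH θ t) ∧
    4 * HH θ t * Real.log ((2 : ℝ) ^ t) ≤ 2 ^ t / 4 ∧
    16 * Real.log ((2 : ℝ) ^ t) ≤ Real.sqrt (HH θ t) ∧
    (2 ^ t / (2 * Real.log ((2 : ℝ) ^ t)) ≤ (((Ioc (2 ^ t) (2 * 2 ^ t)).filter Nat.Prime).card : ℝ)) := by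
  have hT : Tendsto (fun t : ℕ => (2 : ℝ) ^ t) atTop atTop :=
    tendsto_pow_atTop_atTop_of_one_lt (by norm_num)
  have hTn : Tendsto (fun t : ℕ => 2 ^ t) atTop atTop :=
    tendsto_pow_atTop_atTop_of_one_lt (by norm_num : 1 < 2)
  have a1 : ∀ᶠ x : ℝ in atTop, 3600 ≤ x ^ θ := (tendsto_rpow_atTop h0).eventually_ge_atTop _
  have a2 : ∀ᶠ x : ℝ in atTop, 2 ≤ Real.log (x ^ θ) :=
    (Real.tendsto_log_atTop.comp (tendsto_rpow_atTop h0)).eventually_ge_atTop _
  have a3 : ∀ᶠ x : ℝ in atTop, Real.log x ≤ 1 / 16 * x ^ (1 - θ) := by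
    have := (isLittleO_log_rpow_atTop (by linarith : 0 < 1 - θ)).bound (by norm_num : (0 : ℝ) < 1 / 16)
    filter_upwards [this, eventually_ge_atTop 1] with x hx hx1
    rwa [Real.norm_of_nonneg (Real.log_nonneg hx1), Real.norm_of_nonneg (by positivity)] at hx
  have a4 : ∀ᶠ x : ℝ in atTop, Real.log x ≤ 1 / 16 * x ^ (θ / 2) := by
    have := (isLittleO_log_rpow_atTop (by linarith : 0 < θ / 2)).bound (by norm_num : (0 : ℝ) < 1 / 16)
    filter_upwards [this, eventually_ge_atTop 1] with x hx hx1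
    rwa [Real.norm_of_nonneg (Real.log_nonneg hx1), Real.norm_of_nonneg (by positivity)] at hx
  filter_upwards [hT.eventually a1, hT.eventually a2, hT.eventually a3, hT.eventually a4,
    hTn.eventually (Pool.Agent.Helper564.E451.pnt_window 1 one_pos le_rfl),
    hT.eventually (eventually_ge_atTop 1)] with t b1 b2 b3 b4 b5 b6
  have hN0 : (0 : ℝ) < 2 ^ t := by linarith
  refine ⟨b1, ?_, b2, ?_, ?_, ?_⟩
  · unfold HH
    calc ((2 : ℝ) ^ t) ^ θ ≤ ((2 : ℝ) ^ t) ^ (1 : ℝ) :=
          Real.rpow_le_rpow_of_exponent_le b6 h1.le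
      _ = 2 ^ t := Real.rpow_one _
  · unfold HH
    calc 4 * ((2 : ℝ) ^ t) ^ θ * Real.log ((2 : ℝ) ^ t)
        ≤ 4 * ((2 : ℝ) ^ t) ^ θ * (1 / 16 * ((2 : ℝ) ^ t) ^ (1 - θ)) :=
          mul_le_mul_of_nonneg_left b3 (by positivity)
      _ = 1 / 4 * (((2 : ℝ) ^ t) ^ θ * ((2 : ℝ) ^ t) ^ (1 - θ)) := by ring
      _ = 2 ^ t / 4 := by
          rw [← Real.rpow_add hN0]
          have : θ + (1 - θ) = 1 := by ring
          rw [this, Real.rpow_one]
          ring
  · unfold HH
    have e1 : Real.sqrt (((2 : ℝ) ^ t) ^ θ) = ((2 : ℝ) ^ t) ^ (θ / 2) := by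
      rw [Real.sqrt_eq_rpow, ← Real.rpow_mul hN0.le]
      congr 1
      ring
    rw [e1]
    linarith
  · push_cast at b5
    have e1 : ⌊(1 + 1) * (2 : ℝ) ^ t⌋₊ = 2 * 2 ^ t := by
      have : (1 + 1) * (2 : ℝ) ^ t = ((2 * 2 ^ t : ℕ) : ℝ) := by push_cast; ring
      rw [this, Nat.floor_natCast]
    rw [e1] at b5
    refine le_trans (le_of_eq ?_) b5
    have hl : Real.log ((2 : ℝ) ^ t) ≠ 0 := by
      intro h
      have e2 : Real.log (((2 : ℝ) ^ t) ^ θ) = θ * Real.log ((2 : ℝ) ^ t) := Real.log_rpow hN0 θ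
      rw [e2, h] at b2
      norm_num at b2
    field_simp

/-- **Existence of the scales.** -/
theorem exists_sc (θ : ℝ) (h0 : 0 < θ) (h1 : θ < 1) : ∀ᶠ t : ℕ in atTop, ∃ Q0, Sc θ t Q0 := by
  classical
  filter_upwards [sizes θ h0 h1] with t ht
  obtain ⟨b1, b2, b3, b4, b5, b6⟩ := ht
  set H := HH θ t with hH
  set N : ℕ := 2 ^ t with hN
  have hNR : (N : ℝ) = (2 : ℝ) ^ t := by rw [hN]; push_cast; rfl
  rw [← hNR] at b2 b4 b5 b6
  set L : ℕ := ⌊H / 4⌋₊ with hL
  have hH0 : 0 ≤ H := by linarith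
  have L1 : (L : ℝ) ≤ H / 4 := Nat.floor_le (by linarith)
  have L2 : H / 9 ≤ L := by
    have := Nat.lt_floor_add_one (H / 4)
    rw [← hL] at this
    linarith
  have L3 : (400 : ℝ) ≤ L := by linarith
  have L4 : 400 ≤ L := by exact_mod_cast L3
  have hL0 : (0 : ℝ) < L := by linarith
  have hN0 : (0 : ℝ) < N := by linarith
  set M : ℕ := Nat.sqrt L with hM
  have M1 : (M : ℝ) ≤ Real.sqrt L := Real.nat_sqrt_le_real_sqrt
  have M2 : Real.sqrt L ≤ M + 1 := Real.real_sqrt_le_nat_sqrt_succ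
  have hsH : 60 ≤ Real.sqrt H := by
    refine Real.le_sqrt_of_sq_le ?_
    linarith
  have M3 : Real.sqrt H / 3 ≤ Real.sqrt L := by
    refine Real.le_sqrt_of_sq_le ?_
    rw [div_pow, Real.sq_sqrt hH0]
    linarith
  have M4 : Real.sqrt H / 6 ≤ M := by linarith
  set B : ℕ := N / L with hB
  have B1 : (B : ℝ) * L ≤ N := by
    have : B * L ≤ N := Nat.div_mul_le_self _ _
    exact_mod_cast this
  have hlogN : 0 < Real.log N := by
    have e1 : Real.log H = θ * Real.log N := by
      rw [hH, hNR]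
      unfold HH
      exact Real.log_rpow (by positivity) θ
    rw [e1] at b3
    by_contra hc
    push Not at hc
    nlinarith
  have hlogL : θ / 2 * Real.log N ≤ Real.log L := by
    have e1 : Real.log H = θ * Real.log N := by
      rw [hH, hNR]
      unfold HH
      exact Real.log_rpow (by positivity) θ
    have e2 : Real.log H ≤ 2 * Real.log L := by
      have e3 : Real.log ((L : ℝ) ^ 2) = 2 * Real.log L := by
        rw [Real.log_pow]
        norm_num
      rw [← e3]
      refine Real.log_le_log (by linarith) ?_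
      nlinarith
    linarith
  have hlogL0 : 0 < Real.log L := lt_of_lt_of_le (by positivity) hlogL
  set S := (Ico 2 B).filter fun i => M ≤ (pb N L i).card with hS
  -- the number of good blocks
  have hcount : θ / 160 * N ≤ (S.card : ℝ) * L := by
    have c1 : ((((Ioc N (2 * N)).filter Nat.Prime).card : ℕ) : ℝ) ≤
        3 * L + ∑ i ∈ Ico 2 B, ((pb N L i).card : ℝ) := by
      exact_mod_cast total N L (by omega)
    have c2 : ∑ i ∈ Ico 2 B, ((pb N L i).card : ℝ) ≤ S.card * (20 * (L / Real.log L)) + B * M := by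
      rw [← sum_filter_add_sum_filter_not (Ico 2 B) (fun i => M ≤ (pb N L i).card)]
      refine add_le_add ?_ ?_
      · rw [← hS]
        refine (sum_le_sum fun i _ => pb_card N L i (by omega)).trans (le_of_eq ?_)
        rw [sum_const, nsmul_eq_mul]
      · have c3 : ∀ i ∈ (Ico 2 B).filter (fun i => ¬ M ≤ (pb N L i).card),
            ((pb N L i).card : ℝ) ≤ M := by
          intro i hi
          rw [mem_filter] at hi
          exact_mod_cast (not_le.1 hi.2).le
        refine (sum_le_sum c3).trans ?_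
        rw [sum_const, nsmul_eq_mul]
        refine mul_le_mul_of_nonneg_right ?_ (Nat.cast_nonneg _)
        have c4 : ((Ico 2 B).filter (fun i => ¬ M ≤ (pb N L i).card)).card ≤ B := by
          refine (card_filter_le _ _).trans ?_
          rw [Nat.card_Ico]
          exact Nat.sub_le _ _
        exact_mod_cast c4
    have c5 : (B : ℝ) * M * Real.log N ≤ 3 / 16 * N := by
      have c6 : Real.log N ≤ 3 / 16 * Real.sqrt L := by linarith
      have c7 : (B : ℝ) * M * Real.log N ≤ B * Real.sqrt L * (3 / 16 * Real.sqrt L) :=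
        mul_le_mul (mul_le_mul_of_nonneg_left M1 (Nat.cast_nonneg _)) c6 hlogN.le (by positivity)
      have c8 : (B : ℝ) * Real.sqrt L * (3 / 16 * Real.sqrt L) = 3 / 16 * (B * L) := by
        calc (B : ℝ) * Real.sqrt L * (3 / 16 * Real.sqrt L)
            = 3 / 16 * (B * (Real.sqrt L * Real.sqrt L)) := by ring
          _ = 3 / 16 * (B * L) := by rw [Real.mul_self_sqrt hL0.le]
      linarith
    have c9 : 3 * (L : ℝ) * Real.log N ≤ 3 / 64 * N := by
      have : (L : ℝ) * Real.log N ≤ H / 4 * Real.log N := mul_le_mul_of_nonneg_right L1 hlogN.le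
      linarith
    have c10 : (N : ℝ) / 2 ≤ (((Ioc N (2 * N)).filter Nat.Prime).card : ℝ) * Real.log N := by
      rw [div_le_iff₀ (by positivity)] at b6
      linarith
    have c11 : (((Ioc N (2 * N)).filter Nat.Prime).card : ℝ) * Real.log N ≤
        (3 * L + (S.card * (20 * (L / Real.log L)) + B * M)) * Real.log N :=
      mul_le_mul_of_nonneg_right (by linarith) hlogN.le
    have c12 : (N : ℝ) / 4 ≤ S.card * (20 * (L / Real.log L)) * Real.log N := by nlinarith
    have c13 : (S.card : ℝ) * (20 * (L / Real.log L)) * Real.log N ≤ S.card * L * (40 / θ) := by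
      have c14 : Real.log N / Real.log L ≤ 2 / θ := by
        rw [div_le_div_iff₀ hlogL0 h0]
        linarith
      calc (S.card : ℝ) * (20 * (L / Real.log L)) * Real.log N =
            20 * (S.card * L) * (Real.log N / Real.log L) := by ring
        _ ≤ 20 * (S.card * L) * (2 / θ) := mul_le_mul_of_nonneg_left c14 (by positivity)
        _ = S.card * L * (40 / θ) := by ring
    have c15 : (N : ℝ) / 4 ≤ S.card * L * (40 / θ) := c12.trans c13
    rw [← mul_div_assoc, le_div_iff₀ h0] at c15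
    linarith
  -- the chosen primes
  have hT : ∀ i, ∃ T : Finset ℕ, i ∈ S → T ⊆ pb N L i ∧ T.card = M := by
    intro i
    by_cases hi : i ∈ S
    · obtain ⟨T, hT1, hT2⟩ := exists_subset_card_eq (mem_filter.1 hi).2
      exact ⟨T, fun _ => ⟨hT1, hT2⟩⟩
    · exact ⟨∅, fun h => absurd h hi⟩
  choose T hT using hT
  have hmem : ∀ i ∈ S, ∀ q ∈ T i, q.Prime ∧ N + i * L < q ∧ q ≤ N + (i + 1) * L := by
    intro i hi q hq
    have := (hT i hi).1 hq
    unfold pb at this
    rw [mem_filter, mem_Ioc] at this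
    exact ⟨this.2, this.1.1, this.1.2⟩
  have hSB : ∀ i ∈ S, 2 ≤ i ∧ i < B := by
    intro i hi
    rw [hS, mem_filter, mem_Ico] at hi
    exact hi.1
  have hBL : B * L ≤ N := Nat.div_mul_le_self _ _
  have hend : ∀ i ∈ S, N + (i + 1) * L ≤ 2 * N := by
    intro i hi
    have : (i + 1) * L ≤ B * L := Nat.mul_le_mul_right _ (hSB i hi).2
    omega
  refine ⟨S.biUnion T, ⟨?_, ?_, ?_⟩⟩
  · intro q hq
    rw [mem_biUnion] at hq
    obtain ⟨i, hi, hqi⟩ := hq
    obtain ⟨p1, p2, p3⟩ := hmem i hi q hqi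
    refine ⟨p1, ?_, ?_⟩
    · have e1 : N + 2 * L < q := by
        have : 2 * L ≤ i * L := Nat.mul_le_mul_right _ (hSB i hi).1
        omega
      have e2 : (N : ℝ) + 2 * L < q := by exact_mod_cast e1
      rw [← hNR]
      have e3 : H / 4 ≤ 2 * L := by
        have := Nat.lt_floor_add_one (H / 4)
        rw [← hL] at this
        linarith
      linarith
    · have := hend i hi
      rw [pow_succ]
      omega
  · have d1 : ((S.biUnion T).card : ℝ) ≤ B * M := by
      have d2 : (S.biUnion T).card ≤ B * M := by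
        refine card_biUnion_le.trans ?_
        rw [sum_congr rfl fun i hi => (hT i hi).2, sum_const, smul_eq_mul]
        refine Nat.mul_le_mul_right _ ?_
        rw [hS]
        refine (card_filter_le _ _).trans ?_
        rw [Nat.card_Ico]
        exact Nat.sub_le _ _
      exact_mod_cast d2
    refine d1.trans ?_
    have hsL0 : 0 < Real.sqrt L := Real.sqrt_pos.2 hL0
    have hsH0 : 0 < Real.sqrt H := by linarith
    have d3 : (B : ℝ) * M ≤ N / Real.sqrt L := by
      rw [le_div_iff₀ hsL0]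
      calc (B : ℝ) * M * Real.sqrt L ≤ B * Real.sqrt L * Real.sqrt L :=
            mul_le_mul_of_nonneg_right (mul_le_mul_of_nonneg_left M1 (Nat.cast_nonneg _)) hsL0.le
        _ = B * L := by rw [mul_assoc, Real.mul_self_sqrt hL0.le]
        _ ≤ N := B1
    have d4 : (N : ℝ) / Real.sqrt L ≤ 3 * (N / Real.sqrt H) := by
      rw [← mul_div_assoc, div_le_div_iff₀ hsL0 hsH0]
      nlinarith
    refine d3.trans (d4.trans (le_of_eq ?_))
    rw [hH, ← hNR]
    unfold HH
    rw [← hNR, Real.sqrt_eq_rpow, ← Real.rpow_mul hN0.le, Real.rpow_sub hN0, Real.rpow_one]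
    congr 2
    congr 1
    ring
  · refine ⟨⋃ i ∈ S, Set.Ioc ((N : ℝ) + i * L) (N + (i + 1) * L), ?_, ?_, ?_, ?_⟩
    · exact Finset.measurableSet_biUnion _ fun i _ => measurableSet_Ioc
    · intro x hx
      simp only [Set.mem_iUnion] at hx
      obtain ⟨i, hi, hx1, hx2⟩ := hx
      rw [← hNR]
      have e1 : (0 : ℝ) ≤ i * L := by positivity
      have e2 : ((N : ℝ) + (i + 1) * L) ≤ 2 * N := by exact_mod_cast hend i hi
      exact ⟨by linarith, by linarith⟩
    · rw [measure_biUnion_finset]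
      · simp_rw [Real.volume_Ioc]
        have e1 : ∀ i : ℕ, (N : ℝ) + (i + 1) * L - (N + i * L) = L := fun i => by ring
        simp_rw [e1]
        rw [sum_const, nsmul_eq_mul, ENNReal.toReal_mul, ENNReal.toReal_natCast,
          ENNReal.toReal_ofReal hL0.le, ← hNR]
        exact hcount
      · intro i _ j _ hij
        rw [Function.onFun, Set.disjoint_left]
        intro x hx hx'
        have a1 := hx.1
        have a2 := hx.2
        have a3 := hx'.1
        have a4 := hx'.2
        rcases lt_or_gt_of_ne hij with h | h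
        · have : (i : ℝ) + 1 ≤ j := by exact_mod_cast h
          have := mul_le_mul_of_nonneg_right this hL0.le
          linarith
        · have : (j : ℝ) + 1 ≤ i := by exact_mod_cast h
          have := mul_le_mul_of_nonneg_right this hL0.le
          linarith
      · exact fun i _ => measurableSet_Ioc
    · intro x hx
      simp only [Set.mem_iUnion] at hx
      obtain ⟨i, hi, hx1, hx2⟩ := hx
      refine M4.trans ?_
      rw [← (hT i hi).2]
      refine Nat.cast_le.2 (card_le_card ?_)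
      intro q hq
      obtain ⟨_, p2, p3⟩ := hmem i hi q hq
      have q2 : (N : ℝ) + i * L < q := by exact_mod_cast p2
      have q3 : (q : ℝ) ≤ N + (i + 1) * L := by exact_mod_cast p3
      rw [mem_filter, mem_biUnion, abs_lt]
      refine ⟨⟨i, hi, hq⟩, ?_, ?_⟩
      · linarith
      · linarith

end Pool.Agent.H611.GL
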