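import Pool.Agent.H611.ST.AE
import Pool.Graph.R_pool_sql_team_seeded_3997aac3.Q163.CL.Dist

set_option autoImplicit false

/-!
# The Gaussian law survives changes of the signs on thin sets of primes
-/

namespace Pool.Agent.H611.GL

open Finset Filter Topology MeasureTheory Pool.Agent.Q163.RP Pool.Agent.Q163.RX Pool.Agent.Q163.GC
  Pool.Agent.Y293.SF Pool.Agent.H611.ST

/-- the signs changed at the primes up to `y` only -/
def cut (ω ω' : ℕ → Bool) (y p : ℕ) : Bool := if p ≤ y then ω' p else ω p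

/-- the coefficients of the difference -/
noncomputable def gy (ω ω' : ℕ → Bool) (y d : ℕ) : ℝ :=
  (if Squarefree d then hh ω ω' d else 0) - (if Squarefree d then hh ω (cut ω ω' y) d else 0)

lemma gy_low (ω ω' : ℕ → Bool) {y d : ℕ} (hd : d ≤ y) : gy ω ω' y d = 0 := by
  unfold gy
  split_ifs with h
  · have h1 : hh ω (cut ω ω' y) d = hh ω ω' d := by
      unfold hh
      refine prod_congr rfl fun p hp => ?_
      have h2 : p ≤ y := (Nat.le_of_mem_primeFactors hp).trans hd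
      unfold rr cut
      rw [if_pos h2]
    rw [h1, sub_self]
  · simp

lemma gy_le (Q : Set ℕ) (ω ω' : ℕ → Bool) (hQ : ∀ p : ℕ, p.Prime → ω' p ≠ ω p → p ∈ Q) (y d : ℕ) :
    |gy ω ω' y d| ≤ ww Q d := by
  have h0 := abs_hh_le Q ω ω' hQ d
  unfold gy
  split_ifs at h0 ⊢ with h
  · by_cases h1 : ∃ p ∈ d.primeFactors, y < p
    · obtain ⟨p, hp, hpy⟩ := h1
      have h2 : hh ω (cut ω ω' y) d = 0 := by
        unfold hh
        refine prod_eq_zero hp ?_
        have h3 : cut ω ω' y p = ω p := by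
          unfold cut
          rw [if_neg (by omega)]
        unfold rr
        rw [if_pos h3]
      rw [h2, sub_zero]
      exact h0
    · push Not at h1
      have h2 : hh ω (cut ω ω' y) d = hh ω ω' d := by
        unfold hh
        refine prod_congr rfl fun p hp => ?_
        unfold rr cut
        rw [if_pos (h1 p hp)]
      rw [h2, sub_self, abs_zero]
      exact ww_nonneg Q d
  · simpa using h0

/-- the difference of the two functions -/
noncomputable def FF (ω ω' : ℕ → Bool) (y n : ℕ) : ℝ := mu n * ch ω' n - mu n * ch (cut ω ω' y) n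

lemma FF_eq (ω ω' : ℕ → Bool) (y n D Y : ℕ) (hn : 1 ≤ n) (hY : n ≤ Y) (hyD : y ≤ D) (hDY : D ≤ Y) :
    FF ω ω' y n = (∑ d ∈ Ioc y D, gy ω ω' y d * (ad d n * ch ω n)) +
      ∑ d ∈ Ioc D Y, gy ω ω' y d * (ad d n * ch ω n) := by
  unfold FF
  rw [expand_mu ω ω' n Y hn hY, expand_mu ω (cut ω ω' y) n Y hn hY, ← sum_sub_distrib,
    sum_Ioc_consecutive (fun d => gy ω ω' y d * (ad d n * ch ω n)) hyD hDY]
  have h1 : Ioc y Y ⊆ Icc 1 Y := by
    intro d hd
    rw [mem_Ioc] at hd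
    rw [mem_Icc]
    omega
  rw [← sum_subset h1]
  · refine sum_congr rfl fun d _ => ?_
    unfold gy
    ring
  · intro d hd hd2
    rw [mem_Icc] at hd
    rw [mem_Ioc] at hd2
    have h2 := gy_low ω ω' (y := y) (d := d) (by omega)
    have h3 : (if Squarefree d then hh ω ω' d else 0) * (ad d n * ch ω n) -
        (if Squarefree d then hh ω (cut ω ω' y) d else 0) * (ad d n * ch ω n) =
        gy ω ω' y d * (ad d n * ch ω n) := by
      unfold gy
      ring
    rw [h3, h2, zero_mul]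

/-- the tails of the weights -/
lemma tails (Q : Set ℕ) (s : ℝ) (hs : s < 1 / 2) (K : ℝ)
    (hK2 : ∀ S : Finset ℕ, ∑ d ∈ S, ww Q d * (d : ℝ) ^ (-s) ≤ K) (y Y : ℕ) (hy : 1 ≤ y) :
    ∑ d ∈ Ioc y Y, ww Q d * ee d ≤ K * (y : ℝ) ^ (-(1 / 2 - s)) := by
  have hyR : (1 : ℝ) ≤ y := by exact_mod_cast hy
  have hyp : (0 : ℝ) < y := by linarith
  have h1 : ∀ d ∈ Ioc y Y, ww Q d * ee d ≤ ww Q d * (d : ℝ) ^ (-s) * (y : ℝ) ^ (-(1 / 2 - s)) := by
    intro d hd
    rw [mul_assoc]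
    refine mul_le_mul_of_nonneg_left ?_ (ww_nonneg Q d)
    have hd1 := (mem_Ioc.1 hd).1
    have hd0 : (0 : ℝ) < d := by
      have : 0 < d := by omega
      exact_mod_cast this
    unfold ee
    have e1 : (d : ℝ) ^ (-(1 / 2 : ℝ)) = (d : ℝ) ^ (-s) * (d : ℝ) ^ (-(1 / 2 - s)) := by
      rw [← Real.rpow_add hd0]
      congr 1
      ring
    rw [e1]
    refine mul_le_mul_of_nonneg_left ?_ (by positivity)
    exact Real.rpow_le_rpow_of_nonpos hyp (by exact_mod_cast hd1.le) (by linarith)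
  refine (sum_le_sum h1).trans ?_
  rw [← sum_mul]
  exact mul_le_mul_of_nonneg_right (hK2 (Ioc y Y)) (by positivity)

lemma BB_two (f g : ℕ → ℝ) (N h : ℕ) :
    BB (fun n => f n + g n) N h ≤ 2 * BB f N h + 2 * BB g N h := by
  unfold BB
  rw [mul_sum, mul_sum, ← sum_add_distrib]
  refine sum_le_sum fun x _ => ?_
  have h1 : W (fun n => f n + g n) x h = W f x h + W g x h := by
    unfold W
    exact sum_add_distrib
  rw [h1]
  nlinarith [sq_nonneg (W f x h - W g x h)]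

/-- the bound at the points of the grid -/
lemma point (Q : Set ℕ) (ω ω' : ℕ → Bool) (hQ : ∀ p : ℕ, p.Prime → ω' p ≠ ω p → p ∈ Q) (y N h D : ℕ)
    (hN : 1 ≤ N) (hyD : y ≤ D) (hDN : D ≤ N) (τ S' δ η : ℝ)
    (hτ : ∑ d ∈ Ioc y D, ww Q d * ee d ≤ τ) (hS : ∑ d ∈ Ioc D (N + h), ww Q d * ee d ≤ S')
    (hZ : S' * ∑ d ∈ Ioc D (N + h), ww Q d * (ee d)⁻¹ * BB (fun n => ad d n * ch ω n) N h ≤
      η * (h * N))
    (hδ : (D : ℝ) ^ 4 * δ ≤ η * (h * N)) (hδ0 : 0 ≤ δ)
    (hO : ∀ d ∈ Ioc 0 D, |OL (fun n => ad d n * ch ω n) (fun n => ad d n * ch ω n) N h| ≤ δ) :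
    BB (FF ω ω' y) N h ≤ (6 * τ ^ 2 + 2 * τ * η + 2 * η) * (h * N) := by
  set u : ℕ → ℕ → ℝ := fun d n => ad d n * ch ω n with hu
  set f1 : ℕ → ℝ := fun n => ∑ d ∈ Ioc y D, gy ω ω' y d * u d n with hf1
  set f2 : ℕ → ℝ := fun n => ∑ d ∈ Ioc D (N + h), gy ω ω' y d * u d n with hf2
  set X : ℝ := h * N with hX
  have hX0 : 0 ≤ X := by positivity
  have hw0 : ∀ d, 0 ≤ ww Q d := ww_nonneg Q
  have hgw : ∀ d, |gy ω ω' y d| ≤ ww Q d := gy_le Q ω ω' hQ y
  have hτ0 : 0 ≤ τ := (sum_nonneg fun d hd => mul_nonneg (hw0 d) (ee_pos (by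
    have := (mem_Ioc.1 hd).1
    omega)).le).trans hτ
  have c1 : BB (FF ω ω' y) N h = BB (fun n => f1 n + f2 n) N h :=
    (congr_BD _ _ N h fun n hn hn2 => FF_eq ω ω' y n D (N + h) hn hn2 hyD (by omega)).1
  have m2 : BB f2 N h ≤ η * X := by
    refine (BB_cs (Ioc D (N + h)) _ (ww Q) ee u (fun d _ => hgw d) (fun d hd => ee_pos (by
      have := (mem_Ioc.1 hd).1
      omega)) N h).trans (le_trans ?_ hZ)
    refine mul_le_mul_of_nonneg_right hS ?_
    refine sum_nonneg fun d hd => mul_nonneg (mul_nonneg (hw0 d) (inv_nonneg.2 (ee_pos (by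
      have := (mem_Ioc.1 hd).1
      omega)).le)) ?_
    exact sum_nonneg fun _ _ => sq_nonneg _
  have m1 : BB f1 N h ≤ τ * (3 * X * τ + η * X) := by
    refine (BB_cs (Ioc y D) _ (ww Q) ee u (fun d _ => hgw d) (fun d hd => ee_pos (by
      have := (mem_Ioc.1 hd).1
      omega)) N h).trans ?_
    have h3 : ∑ d ∈ Ioc y D, ww Q d * (ee d)⁻¹ * BB (u d) N h ≤ 3 * X * τ + η * X := by
      have h4 : ∀ d ∈ Ioc y D, ww Q d * (ee d)⁻¹ * BB (u d) N h ≤
          3 * X * (ww Q d * ee d) + (D : ℝ) ^ 2 * δ := by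
        intro d hd
        rw [mem_Ioc] at hd
        have hd1 : 1 ≤ d := by omega
        have hdD : (d : ℝ) ≤ D := by exact_mod_cast hd.2
        have hd0 : (1 : ℝ) ≤ d := by exact_mod_cast hd1
        have h5 : BB (u d) N h ≤ 3 * X / d + δ := by
          have h6 : OL (u d) (u d) N h = BB (u d) N h - DD (u d) N h := by
            unfold OL BB DD
            congr 1
            · exact sum_congr rfl fun x _ => (sq _).symm
            · exact sum_congr rfl fun x _ => sum_congr rfl fun j _ => (sq _).symm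
          have h7 := (abs_le.1 (hO d (by rw [mem_Ioc]; omega))).2
          rw [h6] at h7
          have h8 : DD (u d) N h ≤ 3 * X / d := by
            rw [hu]
            simp only
            rw [DD_eq]
            exact DD_ad d N h (by omega) (by omega)
          linarith
        have h9 : ww Q d * (ee d)⁻¹ ≤ (D : ℝ) ^ 2 := by
          have e1 : (ee d)⁻¹ ≤ D := by
            unfold ee
            rw [Real.rpow_neg (by linarith), inv_inv]
            calc (d : ℝ) ^ (1 / 2 : ℝ) ≤ (d : ℝ) ^ (1 : ℝ) :=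
                  Real.rpow_le_rpow_of_exponent_le hd0 (by norm_num)
              _ = d := Real.rpow_one _
              _ ≤ D := hdD
          calc ww Q d * (ee d)⁻¹ ≤ D * D :=
                mul_le_mul ((ww_le Q d).trans hdD) e1 (inv_nonneg.2 (ee_pos hd1).le) (by positivity)
            _ = (D : ℝ) ^ 2 := by ring
        calc ww Q d * (ee d)⁻¹ * BB (u d) N h ≤ ww Q d * (ee d)⁻¹ * (3 * X / d + δ) :=
              mul_le_mul_of_nonneg_left h5 (mul_nonneg (hw0 d) (inv_nonneg.2 (ee_pos hd1).le))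
          _ = 3 * X * (ww Q d * ((ee d)⁻¹ / d)) + ww Q d * (ee d)⁻¹ * δ := by ring
          _ ≤ 3 * X * (ww Q d * ee d) + (D : ℝ) ^ 2 * δ := by
              rw [ee_inv_div hd1]
              exact add_le_add_right (mul_le_mul_of_nonneg_right h9 hδ0) _
      refine (sum_le_sum h4).trans ?_
      rw [sum_add_distrib, ← mul_sum, sum_const, Nat.card_Ioc, nsmul_eq_mul]
      refine add_le_add (mul_le_mul_of_nonneg_left hτ (by positivity)) (le_trans ?_ hδ)
      have h5 : ((D - y : ℕ) : ℝ) ≤ D := by exact_mod_cast Nat.sub_le D y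
      rcases Nat.eq_zero_or_pos D with h0 | h0
      · subst h0
        simp
      have h6 : (1 : ℝ) ≤ D := by exact_mod_cast h0
      calc ((D - y : ℕ) : ℝ) * ((D : ℝ) ^ 2 * δ) ≤ D * ((D : ℝ) ^ 2 * δ) :=
            mul_le_mul_of_nonneg_right h5 (by positivity)
        _ = (D : ℝ) ^ 3 * δ := by ring
        _ ≤ (D : ℝ) ^ 4 * δ :=
            mul_le_mul_of_nonneg_right (pow_le_pow_right₀ h6 (by norm_num)) hδ0
    refine mul_le_mul hτ h3 ?_ hτ0
    refine sum_nonneg fun d hd => mul_nonneg (mul_nonneg (hw0 d) (inv_nonneg.2 (ee_pos (by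
      have := (mem_Ioc.1 hd).1
      omega)).le)) ?_
    exact sum_nonneg fun _ _ => sq_nonneg _
  have h9 := BB_two f1 f2 N h
  rw [c1]
  nlinarith

/-- from the grid to all windows -/
lemma interp (F : ℕ → ℝ) (δ : ℝ) (hδ : 0 ≤ δ) (B A : ℕ) (hB : 1 ≤ B) (hA : B + 1 ≤ A)
    (hF : ∀ᶠ j : ℕ in atTop, ∀ i : ℕ, 2 ^ i * j ^ B ≤ j ^ A →
      BB F (j ^ A) (2 ^ i) ≤ δ * ((2 ^ i : ℕ) * (j : ℝ) ^ A)) :
    ∀ᶠ N : ℕ in atTop, ∀ h : ℕ, (h : ℝ) * (N : ℝ) ^ (((B + 2 : ℕ) : ℝ) / A) ≤ N →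
      BB F N h ≤ 24 * δ * (h * N) := by
  have h1 : ∀ B : ℕ, ∀ᶠ j : ℕ in atTop, (j + 2) ^ B ≤ 2 * j ^ B := by
    intro B
    have t1 : Tendsto (fun j : ℕ => (1 + 2 / (j : ℝ)) ^ B) atTop (nhds ((1 + 0) ^ B)) :=
      (tendsto_const_nhds.add (tendsto_const_div_atTop_nhds_zero_nat 2)).pow B
    rw [add_zero, one_pow] at t1
    filter_upwards [t1.eventually_le_const (by norm_num : (1 : ℝ) < 2),
      eventually_ge_atTop 1] with j hj hj1
    have hj0 : (0 : ℝ) < j := by exact_mod_cast hj1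
    have : ((j + 2 : ℕ) : ℝ) = j * (1 + 2 / (j : ℝ)) := by
      push_cast
      field_simp
    have h2 : ((j + 2 : ℕ) : ℝ) ^ B ≤ 2 * (j : ℝ) ^ B := by
      rw [this, mul_pow]
      nlinarith [pow_pos hj0 B]
    exact_mod_cast h2
  obtain ⟨j1, hj1⟩ := eventually_atTop.1 hF
  obtain ⟨j2, hj2⟩ := eventually_atTop.1 ((h1 A).and (h1 (B + 1)))
  set J := max (max j1 j2) 4 with hJ
  filter_upwards [eventually_ge_atTop ((J + 1) ^ A)] with N hN h hh
  have hN1 : 1 ≤ N := le_trans (Nat.one_le_pow _ _ (by omega)) hN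
  have hNR : (1 : ℝ) ≤ N := by exact_mod_cast hN1
  have hN0' : (0 : ℝ) < N := by linarith
  obtain ⟨j, hj1', hjA, hjA'⟩ := exists_root A N (by omega) hN1
  have hA0 : (0 : ℝ) < A := by
    have : 0 < A := by omega
    exact_mod_cast this
  have hge : J ≤ j := by
    by_contra hc
    push Not at hc
    have : (j + 1) ^ A ≤ (J + 1) ^ A := Nat.pow_le_pow_left (by omega) _
    omega
  have e1 : j1 ≤ j := le_trans (le_trans (le_max_left _ _) (le_max_left _ _)) hge
  have e2 : j2 ≤ j := le_trans (le_trans (le_max_right _ _) (le_max_left _ _)) hge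
  have e4 : 4 ≤ j := le_trans (le_max_right _ _) hge
  obtain ⟨g1, g2⟩ := hj2 j e2
  have hjR : (4 : ℝ) ≤ j := by exact_mod_cast e4
  have hjp : (0 : ℝ) < j := by linarith
  rcases Nat.eq_zero_or_pos h with h0 | hpos
  · subst h0
    have : BB F N 0 = 0 := by unfold BB; simp [W_zero]
    rw [this]
    simp
  have hroot : (j : ℝ) ≤ (N : ℝ) ^ (1 / (A : ℝ)) := by
    have : ((j : ℝ) ^ (A : ℝ)) ^ (1 / (A : ℝ)) ≤ (N : ℝ) ^ (1 / (A : ℝ)) := by
      refine Real.rpow_le_rpow (by positivity) ?_ (by positivity)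
      rw [Real.rpow_natCast]
      exact_mod_cast hjA
    rwa [← Real.rpow_mul hjp.le, mul_one_div_cancel hA0.ne', Real.rpow_one] at this
  have hh15 : h * j ^ (B + 2) ≤ N := by
    have h4 : (j : ℝ) ^ (B + 2) ≤ (N : ℝ) ^ (((B + 2 : ℕ) : ℝ) / A) := by
      calc (j : ℝ) ^ (B + 2) ≤ ((N : ℝ) ^ (1 / (A : ℝ))) ^ (B + 2) := pow_le_pow_left₀ hjp.le hroot (B + 2)
        _ = (N : ℝ) ^ (((B + 2 : ℕ) : ℝ) / A) := by
            rw [← Real.rpow_natCast, ← Real.rpow_mul hN0'.le]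
            congr 1
            push_cast
            ring
    have h5 : (h : ℝ) * (j : ℝ) ^ (B + 2) ≤ N :=
      (mul_le_mul_of_nonneg_left h4 (Nat.cast_nonneg _)).trans hh
    exact_mod_cast h5
  set j' := j + 2 with hj'
  have hjA2 : (j + 1) ^ A ≤ 2 * j ^ A := (Nat.pow_le_pow_left (by omega) _).trans g1
  have hh14 : h * j ^ (B + 1) * 2 ≤ j ^ A := by
    have h6 : h * j ^ (B + 1) * 2 * 2 ≤ j ^ A * 2 := by
      calc h * j ^ (B + 1) * 2 * 2 = h * j ^ (B + 1) * 4 := by ring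
        _ ≤ h * j ^ (B + 1) * j := Nat.mul_le_mul_left _ e4
        _ = h * j ^ (B + 2) := by ring
        _ ≤ N := hh15
        _ ≤ (j + 1) ^ A := hjA'.le
        _ ≤ 2 * j ^ A := hjA2
        _ = j ^ A * 2 := mul_comm _ _
    exact Nat.le_of_mul_le_mul_right h6 (by norm_num)
  have hhj' : h * j' ^ (B + 1) ≤ j' ^ A := by
    calc h * j' ^ (B + 1) ≤ h * (2 * j ^ (B + 1)) := Nat.mul_le_mul_left _ g2
      _ = h * j ^ (B + 1) * 2 := by ring
      _ ≤ j ^ A := hh14
      _ ≤ j' ^ A := Nat.pow_le_pow_left (by omega) _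
  have hspace : N + 3 * h ≤ j' ^ A := by
    have b1 : (j + 1) ^ A + (j + 1) ^ (A - 1) ≤ j' ^ A := by
      obtain ⟨A', rfl⟩ : ∃ A', A = A' + 1 := ⟨A - 1, by omega⟩
      rw [Nat.add_sub_cancel, pow_succ, pow_succ]
      calc (j + 1) ^ A' * (j + 1) + (j + 1) ^ A' = (j + 1) ^ A' * (j + 2) := by ring
        _ ≤ (j + 2) ^ A' * (j + 2) := Nat.mul_le_mul_right _ (Nat.pow_le_pow_left (by omega) _)
    have b2 : 3 * h ≤ (j + 1) ^ (A - 1) := by
      have b3 : h * j ^ (B + 1) ≤ j ^ (A - (B + 1)) * j ^ (B + 1) := by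
        rw [← pow_add]
        calc h * j ^ (B + 1) ≤ h * j ^ (B + 1) * 2 := by omega
          _ ≤ j ^ A := hh14
          _ = j ^ (A - (B + 1) + (B + 1)) := by rw [Nat.sub_add_cancel hA]
      have b4 : h ≤ j ^ (A - (B + 1)) :=
        Nat.le_of_mul_le_mul_right b3 (Nat.pow_pos (by omega))
      calc 3 * h ≤ j * h := Nat.mul_le_mul_right _ (by omega)
        _ ≤ j * j ^ (A - (B + 1)) := Nat.mul_le_mul_left _ b4
        _ = j ^ (A - (B + 1) + 1) := by rw [pow_succ]; ring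
        _ ≤ j ^ (A - 1) := Nat.pow_le_pow_right (by omega) (by omega)
        _ ≤ (j + 1) ^ (A - 1) := Nat.pow_le_pow_left (by omega) _
    omega
  set i := Nat.log 2 h + 1 with hi
  have hi1 : h < 2 ^ i := Nat.lt_pow_succ_log_self (by norm_num) h
  have hi2 : 2 ^ i ≤ 2 * h := by
    rw [hi, pow_succ]
    have := Nat.pow_log_le_self 2 (by omega : h ≠ 0)
    omega
  set κ : ℝ := δ * ((j' : ℝ) ^ A) with hκ
  have hκ0 : 0 ≤ κ := by positivity
  have hb : ∀ l < i, ∀ s ≤ 2 * h, Bs F s N (2 ^ l) ≤ κ * 2 ^ l := by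
    intro l hl s hs
    refine (Bs_le F s N (2 ^ l) (j' ^ A) (by omega)).trans ?_
    have hl2 : 2 ^ l ≤ h := by
      calc 2 ^ l ≤ 2 ^ (i - 1) := Nat.pow_le_pow_right (by norm_num) (by omega)
        _ = 2 ^ Nat.log 2 h := by rw [hi, Nat.add_sub_cancel]
        _ ≤ h := Nat.pow_log_le_self 2 (by omega)
    have := hj1 j' (by omega) l (by
      calc 2 ^ l * j' ^ B ≤ h * j' ^ (B + 1) :=
            Nat.mul_le_mul hl2 (Nat.pow_le_pow_right (by omega) (by omega))
        _ ≤ j' ^ A := hhj')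
    refine this.trans (le_of_eq ?_)
    rw [hκ]
    push_cast
    ring
  have hc := chain F N i (2 * h) κ hκ0 hb i le_rfl h hi1 0 (by omega)
  have hBs : Bs F 0 N h = BB F N h := by
    unfold Bs BB
    simp
  rw [hBs] at hc
  refine hc.trans ?_
  have hj'A : (j' : ℝ) ^ A ≤ 2 * N := by
    have h6 : j' ^ A ≤ 2 * N := g1.trans (Nat.mul_le_mul_left _ hjA)
    exact_mod_cast h6
  have hi2R : (2 : ℝ) ^ i ≤ 2 * h := by exact_mod_cast hi2
  calc 6 * κ * 2 ^ i ≤ 6 * (δ * (2 * N)) * (2 * h) := by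
        refine mul_le_mul ?_ hi2R (by positivity) (by positivity)
        rw [hκ]
        exact mul_le_mul_of_nonneg_left (mul_le_mul_of_nonneg_left hj'A hδ) (by norm_num)
    _ = 24 * δ * (h * N) := by ring

end Pool.Agent.H611.GL
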