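import Pool.Agent.H611.ST.Bad
import Pool.Graph.R_pool_sql_team_seeded_3997aac3.Q163.CL.Dist

set_option autoImplicit false

/-!
# Two ordered functions which differ on a set of positive measure cannot both be nearly normal
-/

namespace Pool.Agent.H611.GL

open Finset Filter Topology MeasureTheory ProbabilityTheory

/-- two ordered functions, one law -/
lemma two_laws (P : Measure ℝ) [IsProbabilityMeasure P] (Y Y' : ℝ → ℝ) (hY : Measurable Y)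
    (hY' : Measurable Y') (hle : ∀ᵐ x ∂P, Y x ≤ Y' x) (G : Set ℝ) (hG : ∀ x ∈ G, Y x + 1 / 3 ≤ Y' x)
    (Φ : ℝ → ℝ) (R : ℕ) (η : ℝ)
    (h1 : ∀ i ∈ Icc (-(R : ℤ)) R, |P.real {x | Y x ≤ (i : ℝ) / 3} - Φ ((i : ℝ) / 3)| < η)
    (h2 : ∀ i ∈ Icc (-(R : ℤ)) R, |P.real {x | Y' x ≤ (i : ℝ) / 3} - Φ ((i : ℝ) / 3)| < η) :
    P.real G ≤ Φ (-(R : ℝ) / 3) + (1 - Φ ((R : ℝ) / 3)) + (2 + 4 * R) * η := by
  have hcov : G ⊆ ({x | Y x ≤ ((-(R : ℤ) : ℤ) : ℝ) / 3} ∪ {x | Y x ≤ ((R : ℤ) : ℝ) / 3}ᶜ) ∪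
      ⋃ i ∈ Finset.Ioc (-(R : ℤ)) R, ({x | Y x ≤ (i : ℝ) / 3} \ {x | Y' x ≤ (i : ℝ) / 3}) := by
    intro x hx
    by_cases c1 : Y x ≤ ((-(R : ℤ) : ℤ) : ℝ) / 3
    · exact Or.inl (Or.inl c1)
    by_cases c2 : Y x ≤ ((R : ℤ) : ℝ) / 3
    swap
    · exact Or.inl (Or.inr c2)
    right
    simp only [Set.mem_iUnion]
    set i := ⌈3 * Y x⌉ with hi
    have i1 : 3 * Y x ≤ i := Int.le_ceil _
    have i2 : (i : ℝ) < 3 * Y x + 1 := Int.ceil_lt_add_one _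
    refine ⟨i, ?_, ?_, ?_⟩
    · rw [Finset.mem_Ioc]
      constructor
      · rw [hi, Int.lt_ceil]
        push Not at c1
        rw [div_lt_iff₀ (by norm_num)] at c1
        linarith
      · rw [hi, Int.ceil_le]
        rw [le_div_iff₀ (by norm_num)] at c2
        linarith
    · show Y x ≤ (i : ℝ) / 3
      rw [le_div_iff₀ (by norm_num)]
      linarith
    · show ¬ Y' x ≤ (i : ℝ) / 3
      rw [not_le, div_lt_iff₀ (by norm_num)]
      have := hG x hx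
      linarith
  have hm : ∀ t : ℝ, MeasurableSet {x | Y x ≤ t} := fun t => measurableSet_le hY measurable_const
  have hm' : ∀ t : ℝ, MeasurableSet {x | Y' x ≤ t} := fun t => measurableSet_le hY' measurable_const
  have hdiff : ∀ t : ℝ, P.real ({x | Y x ≤ t} \ {x | Y' x ≤ t}) =
      P.real {x | Y x ≤ t} - P.real {x | Y' x ≤ t} := by
    intro t
    rw [measureReal_sdiff' (s := {x | Y x ≤ t}) (hm' t)]
    congr 1
    refine measureReal_congr ?_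
    filter_upwards [hle] with x hx
    refine propext ⟨fun h => ?_, fun h => Or.inl h⟩
    rcases h with h | h
    · exact h
    · exact le_trans hx h
  have hR0 : (-(R : ℤ)) ∈ Finset.Icc (-(R : ℤ)) R := by rw [Finset.mem_Icc]; omega
  have hR1 : (R : ℤ) ∈ Finset.Icc (-(R : ℤ)) R := by rw [Finset.mem_Icc]; omega
  have k1 := (abs_lt.1 (h1 _ hR0)).2
  have k2 := (abs_lt.1 (h1 _ hR1)).1
  have e1 : ((-(R : ℤ) : ℤ) : ℝ) / 3 = -(R : ℝ) / 3 := by push_cast; ring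
  have e2 : ((R : ℤ) : ℝ) / 3 = (R : ℝ) / 3 := by push_cast; ring
  have s1 : P.real G ≤ P.real ({x | Y x ≤ ((-(R : ℤ) : ℤ) : ℝ) / 3} ∪ {x | Y x ≤ ((R : ℤ) : ℝ) / 3}ᶜ) +
      P.real (⋃ i ∈ Finset.Ioc (-(R : ℤ)) R, ({x | Y x ≤ (i : ℝ) / 3} \ {x | Y' x ≤ (i : ℝ) / 3})) :=
    (measureReal_mono hcov).trans (measureReal_union_le _ _)
  have s2 := measureReal_union_le (μ := P) {x | Y x ≤ ((-(R : ℤ) : ℤ) : ℝ) / 3}
    {x | Y x ≤ ((R : ℤ) : ℝ) / 3}ᶜ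
  have s3 : P.real {x | Y x ≤ ((R : ℤ) : ℝ) / 3}ᶜ = 1 - P.real {x | Y x ≤ ((R : ℤ) : ℝ) / 3} :=
    probReal_compl_eq_one_sub (hm _)
  have s4 : P.real (⋃ i ∈ Finset.Ioc (-(R : ℤ)) R, ({x | Y x ≤ (i : ℝ) / 3} \ {x | Y' x ≤ (i : ℝ) / 3})) ≤
      4 * R * η := by
    refine (measureReal_biUnion_finset_le _ _).trans ?_
    have s5 : ∀ i ∈ Finset.Ioc (-(R : ℤ)) R,
        P.real ({x | Y x ≤ (i : ℝ) / 3} \ {x | Y' x ≤ (i : ℝ) / 3}) ≤ 2 * η := by
      intro i hi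
      rw [hdiff]
      have hi' : i ∈ Finset.Icc (-(R : ℤ)) R := Finset.Ioc_subset_Icc_self hi
      have a1 := (abs_lt.1 (h1 i hi')).2
      have a2 := (abs_lt.1 (h2 i hi')).1
      linarith
    refine (Finset.sum_le_sum s5).trans (le_of_eq ?_)
    rw [Finset.sum_const, Int.card_Ioc, nsmul_eq_mul]
    have : ((R : ℤ) - -(R : ℤ)).toNat = 2 * R := by omega
    rw [this]
    push_cast
    ring
  rw [e1] at k1 s1 s2
  rw [e2] at k2 s1 s2 s3
  linarith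

/-- the parameters: both laws near the normal law is impossible -/
lemma params (ρ : ℝ) (hρ : 0 < ρ) : ∃ R : ℕ, ∃ η : ℝ, 0 < η ∧
    cdf (gaussianReal 0 1) (-(R : ℝ) / 3) + (1 - cdf (gaussianReal 0 1) ((R : ℝ) / 3)) +
      (2 + 4 * R) * η < ρ := by
  have t1 : Tendsto (fun R : ℕ => cdf (gaussianReal 0 1) (-(R : ℝ) / 3)) atTop (𝓝 0) := by
    refine (tendsto_cdf_atBot (gaussianReal 0 1)).comp ?_
    have : Tendsto (fun R : ℕ => (R : ℝ) / 3) atTop atTop :=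
      tendsto_natCast_atTop_atTop.atTop_div_const (by norm_num)
    refine (tendsto_neg_atTop_atBot.comp this).congr fun R => ?_
    simp only [Function.comp]
    ring
  have t2 : Tendsto (fun R : ℕ => 1 - cdf (gaussianReal 0 1) ((R : ℝ) / 3)) atTop (𝓝 (1 - 1)) :=
    ((tendsto_cdf_atTop (gaussianReal 0 1)).comp
      (tendsto_natCast_atTop_atTop.atTop_div_const (by norm_num))).const_sub 1
  have t3 := t1.add t2
  rw [sub_self, add_zero] at t3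
  obtain ⟨R, hR⟩ := (t3.eventually (gt_mem_nhds (by positivity : (0 : ℝ) < ρ / 2))).exists
  refine ⟨R, ρ / (2 * (2 + 4 * R)) / 2, by positivity, ?_⟩
  have e1 : (2 + 4 * (R : ℝ)) * (ρ / (2 * (2 + 4 * R)) / 2) = ρ / 4 := by
    field_simp
    ring
  rw [e1]
  linarith

end Pool.Agent.H611.GL
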